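import Mathlib

/-!
# MP_294a3d_co: extremal target-pebbling configurations on chordal graphs

The fan over the path `0 1 2 3 4` with hub `5`, and one pebble demanded at each end of the path.
-/

namespace Pool.Agent.Results.MP_294a3d_co.Fan

open Function SimpleGraph

section Defs

variable {V : Type} [DecidableEq V] [Fintype V] (G : SimpleGraph V)

/-- No induced cycle of length at least four. -/
def Chordal : Prop := ∀ k, 4 ≤ k → IsEmpty (cycleGraph k ↪g G)

/-- The neighbours of `v` form a clique. -/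
def Simplicial (v : V) : Prop := G.IsClique (G.neighborSet v)

/-- Remove two pebbles from `u` and add one pebble to `v`. -/
def mv (C : V → ℕ) (u v : V) : V → ℕ := update (update C u (C u - 2)) v (C v + 1)

/-- A pebbling step. -/
def Step (C C' : V → ℕ) : Prop := ∃ u v, G.Adj u v ∧ 2 ≤ C u ∧ C' = mv C u v

def Solvable (D C : V → ℕ) : Prop := ∃ C', Relation.ReflTransGen (Step G) C C' ∧ ∀ v, D v ≤ C' v

def MaximalConf (D C : V → ℕ) : Prop :=
  ¬ Solvable G D C ∧ ∀ v, Solvable G D (update C v (C v + 1))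

def Extremal (D C : V → ℕ) : Prop :=
  MaximalConf G D C ∧ ∀ C', MaximalConf G D C' → ∑ v, C' v ≤ ∑ v, C v

end Defs

def F : SimpleGraph (Fin 6) where
  Adj a b := a ≠ b ∧ (a = 5 ∨ b = 5 ∨ a.val + 1 = b.val ∨ b.val + 1 = a.val)
  symm := ⟨fun _ _ h => ⟨h.1.symm, by tauto⟩⟩
  loopless := ⟨fun _ h => h.1 rfl⟩

instance : DecidableRel F.Adj := fun a b => by unfold F; infer_instance

def D : Fin 6 → ℕ := ![1, 0, 0, 0, 1, 0]

set_option synthInstance.maxSize 2000 in
theorem chordal : Chordal F := by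
  intro k hk
  refine ⟨fun f => ?_⟩
  have hc : k ≤ 6 := by simpa using Fintype.card_le_of_injective f f.injective
  have h4 : ∀ a b, F.Adj a b → ∀ c, F.Adj b c → ¬ F.Adj a c → a ≠ c → ∀ d, F.Adj c d →
      ¬ F.Adj b d → b ≠ d → ¬ F.Adj d a ∧ ∀ e, F.Adj d e → ¬ F.Adj c e → c ≠ e →
      ¬ F.Adj e a ∧ ∀ g, F.Adj e g → ¬ F.Adj d g → d = g := by decide +kernel
  have p := fun a b => (f.map_rel_iff (a := a) (b := b)).2
  have q := fun a b => mt (f.map_rel_iff (a := a) (b := b)).1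
  have r := fun a b => f.injective.ne (a₁ := a) (a₂ := b)
  interval_cases k
  · exact (h4 _ _ (p 0 1 (by decide)) _ (p 1 2 (by decide)) (q 0 2 (by decide)) (r 0 2 (by decide))
      _ (p 2 3 (by decide)) (q 1 3 (by decide)) (r 1 3 (by decide))).1 (p 3 0 (by decide))
  · exact ((h4 _ _ (p 0 1 (by decide)) _ (p 1 2 (by decide)) (q 0 2 (by decide)) (r 0 2 (by decide))
      _ (p 2 3 (by decide)) (q 1 3 (by decide)) (r 1 3 (by decide))).2 _ (p 3 4 (by decide))
      (q 2 4 (by decide)) (r 2 4 (by decide))).1 (p 4 0 (by decide))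
  · exact r 3 5 (by decide) (((h4 _ _ (p 0 1 (by decide)) _ (p 1 2 (by decide)) (q 0 2 (by decide))
      (r 0 2 (by decide)) _ (p 2 3 (by decide)) (q 1 3 (by decide)) (r 1 3 (by decide))).2 _
      (p 3 4 (by decide)) (q 2 4 (by decide)) (r 2 4 (by decide))).2 _ (p 4 5 (by decide))
      (q 3 5 (by decide)))

theorem mono {C E : Fin 6 → ℕ} (h : Solvable F D C) (hE : ∀ v, C v ≤ E v) : Solvable F D E := by
  obtain ⟨C', h, hD⟩ := h
  suffices ∃ E', Relation.ReflTransGen (Step F) E E' ∧ ∀ v, C' v ≤ E' v from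
    let ⟨E', h1, h2⟩ := this
    ⟨E', h1, fun v => (hD v).trans (h2 v)⟩
  clear hD
  induction h with
  | refl => exact ⟨E, .refl, hE⟩
  | tail _ hs ih =>
    obtain ⟨E', h1, h2⟩ := ih
    obtain ⟨u, v, huv, hu, rfl⟩ := hs
    refine ⟨_, h1.tail ⟨u, v, huv, hu.trans (h2 u), rfl⟩, fun x => ?_⟩
    have := h2 u
    have := h2 v
    have := h2 x
    simp only [mv, update_apply]
    split_ifs <;> omega

def arcs : List (Fin 6 × Fin 6) :=
  [(1, 0), (3, 4), (5, 0), (5, 4), (2, 1), (2, 3), (2, 5), (1, 5), (3, 5), (0, 5), (4, 5),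
    (0, 1), (1, 2), (4, 3), (3, 2)]

def solv : ℕ → (Fin 6 → ℕ) → Bool
  | 0, C => decide (1 ≤ C 0 ∧ 1 ≤ C 4)
  | k + 1, C => decide (1 ≤ C 0 ∧ 1 ≤ C 4) ||
      arcs.any fun p => decide (2 ≤ C p.1) && solv k (mv C p.1 p.2)

theorem solv_sound (k : ℕ) : ∀ C, solv k C = true → Solvable F D C := by
  have h0 : ∀ C : Fin 6 → ℕ, 1 ≤ C 0 ∧ 1 ≤ C 4 → Solvable F D C := fun C h =>
    ⟨C, .refl, fun v => by fin_cases v <;> simp [D, h.1, h.2]⟩
  induction k with
  | zero => intro C h; exact h0 C (by simpa [solv] using h)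
  | succ k ih =>
    intro C h
    simp only [solv, Bool.or_eq_true, decide_eq_true_eq, List.any_eq_true, Bool.and_eq_true] at h
    rcases h with h | ⟨p, hp, h2, h⟩
    · exact h0 C h
    · obtain ⟨C', h1, h3⟩ := ih _ h
      exact ⟨C', .head ⟨p.1, p.2, (by decide : ∀ p ∈ arcs, F.Adj p.1 p.2) p hp, h2, rfl⟩ h1, h3⟩

theorem eight : ∀ a < 9, ∀ b < 9 - a, ∀ c < 9 - a - b, ∀ d < 9 - a - b - c,
    ∀ e < 9 - a - b - c - d, solv 6 ![a, b, c, d, e, 8 - a - b - c - d - e] = true := by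
  decide +kernel

theorem seven : ∀ b < 2, ∀ c < 2, ∀ d < 2, ∀ g < 2, ∀ a < 8 - b - c - d - g,
    solv 6 ![a, b, c, d, 7 - a - b - c - d - g, g] = true := by
  decide +kernel

theorem big (n : ℕ) : ∀ C : Fin 6 → ℕ, ∑ v, C v = 8 + n → Solvable F D C := by
  induction n with
  | zero =>
    intro C h
    rw [Fin.sum_univ_six] at h
    refine mono (solv_sound _ _ (eight (C 0) (by omega) (C 1) (by omega) (C 2) (by omega) (C 3)
      (by omega) (C 4) (by omega))) fun v => ?_
    fin_cases v <;> simp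
    omega
  | succ n ih =>
    intro C h
    obtain ⟨v, -, hv⟩ := Finset.exists_ne_zero_of_sum_ne_zero (s := Finset.univ) (f := C) (by omega)
    refine mono (ih (update C v (C v - 1)) ?_) fun x => ?_
    · rw [Finset.sum_update_of_mem (Finset.mem_univ _)]
      rw [← Finset.add_sum_erase _ _ (Finset.mem_univ v), Finset.erase_eq] at h
      omega
    · rw [update_apply]
      split_ifs with e
      · subst e
        omega
      · exact le_rfl

theorem unsolv : ¬ Solvable F D ![0, 0, 7, 0, 0, 0] := by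
  rintro ⟨C', h, hD⟩
  have key : 4 * C' 0 + 2 * C' 1 + C' 2 + 2 * C' 3 + 4 * C' 4 + 2 * C' 5 ≤ 7 := by
    clear hD
    induction h with
    | refl => decide
    | tail _ hs ih =>
      obtain ⟨u, v, huv, hu, rfl⟩ := hs
      fin_cases u <;> fin_cases v <;> first
        | exact absurd huv (by decide)
        | (simp [mv] at hu ⊢; omega)
  have h0 : 1 ≤ C' 0 := hD 0
  have h4 : 1 ≤ C' 4 := hD 4
  omega

/-- A connected chordal graph, a target `D` and a `D`-extremal configuration `C` such that every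
`D`-unsolvable configuration of size at least `|C|` has two pebbles on a non-simplicial vertex. -/
theorem result : ∃ (G : SimpleGraph (Fin 6)) (D C : Fin 6 → ℕ), G.Connected ∧ Chordal G ∧
    Extremal G D C ∧ ∀ C', ¬ Solvable G D C' → ∑ v, C v ≤ ∑ v, C' v →
      ∃ v, ¬ Simplicial G v ∧ 2 ≤ C' v := by
  have hb : ∀ C : Fin 6 → ℕ, ¬ Solvable F D C → ∑ v, C v ≤ 7 := fun C h => by
    by_contra hc
    exact h (big (∑ v, C v - 8) C (by omega))
  have h7 : ∑ v, (![0, 0, 7, 0, 0, 0] : Fin 6 → ℕ) v = 7 := by decide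
  refine ⟨F, D, ![0, 0, 7, 0, 0, 0], ?_, chordal, ⟨⟨unsolv, fun v => big 0 _ ?_⟩, fun C hC =>
    h7 ▸ hb C hC.1⟩, fun C hC hs => ?_⟩
  · have : ∀ v, F.Reachable v 5 := fun v => by
      by_cases e : v = 5
      · rw [e]
      · exact Adj.reachable ⟨e, Or.inr (Or.inl rfl)⟩
    exact ⟨fun a b => (this a).trans (this b).symm⟩
  · revert v
    decide
  · by_contra hn
    have hv : ∀ v, v ≠ 0 → v ≠ 4 → C v < 2 := fun v h0 h4 => by
      by_contra h2
      refine hn ⟨v, fun hs => ?_, by omega⟩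
      obtain ⟨a, b, ha, hb, hab, hn⟩ := (by decide : ∀ v : Fin 6, v ≠ 0 → v ≠ 4 →
        ∃ a b, F.Adj v a ∧ F.Adj v b ∧ a ≠ b ∧ ¬ F.Adj a b) v h0 h4
      exact hn (hs ha hb hab)
    have h1 := hv 1 (by decide) (by decide)
    have h2 := hv 2 (by decide) (by decide)
    have h3 := hv 3 (by decide) (by decide)
    have h5 := hv 5 (by decide) (by decide)
    have h8 := hb C hC
    rw [h7] at hs
    rw [Fin.sum_univ_six] at hs h8
    refine hC (mono (solv_sound _ _ (seven _ h1 _ h2 _ h3 _ h5 (C 0) (by omega))) fun v => ?_)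
    fin_cases v <;> simp
    omega

end Pool.Agent.Results.MP_294a3d_co.Fan
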